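import Pool.Agent.H363Z.Resid

set_option autoImplicit false

open Pool.Agent.H363Z

/-- There is a diagram group with a nontrivial element killed by every homomorphism to
`PL₊([0,1])` and by every homomorphism to Thompson's group `F`. -/
theorem Pool.Agent.Results.MP_215185_al.ANotResiduallyPL.result :
    ∃ (A : Type) (P : Pres A) (w : List A), Finite A ∧ P.rel.Finite ∧
      (∀ p ∈ P.rel, (p.2, p.1) ∉ P.rel) ∧ w ≠ [] ∧
      ∃ g : DiagramGroup P w, g ≠ 1 ∧ (∀ φ : DiagramGroup P w →* PLplus, φ g = 1) ∧
        ∀ φ : DiagramGroup P w →* ThompsonF, φ g = 1 :=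
  Res.final'
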